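import Mathlib
import Pool.Agent.TH118.MT.Base
import Pool.Agent.TH118.CU.Final

/-!
# The Mumford-Tate conjecture from local monodromy
-/

set_option linter.unusedSectionVars false

namespace Pool.Agent.TH118.MT

open Module TensorProduct Pool.Agent.H204R3.SP Pool.Agent.H204R3.GP Pool.Agent.W522.U
open Pool.Agent.TH118.WC

variable {k : Type} [Field k] [CharZero k] {Γ : Type} [Group Γ]
  {W T : Type} [AddCommGroup W] [Module ℚ W] [FiniteDimensional ℚ W] [AddCommGroup T] [Module ℂ T]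
  {ρ : Representation k Γ (k ⊗[ℚ] W)} {χ : Γ →* k} {per : W →+ T}

/-- The theorem of Faltings for bilinear forms. -/
theorem faltings_bil (ω₀ : W →ₗ[ℚ] W →ₗ[ℚ] ℚ) (halt : ∀ v, ω₀ v v = 0)
    (hnondeg : ∀ u, (∀ v, ω₀ v u = 0) → u = 0) (hω₀ : IsHodgeBilinear per ω₀)
    (hω : ∀ s u v, bcb k ω₀ (ρ s u) (ρ s v) = χ s * bcb k ω₀ u v)
    (hF : FaltingsEnd per (incl k W) ρ) (B : (k ⊗[ℚ] W) →ₗ[k] (k ⊗[ℚ] W) →ₗ[k] k)
    (hB : IsTate2 ρ χ B) : B ∈ Submodule.span k (HB (k := k) per (incl k W)) := by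
  refine tate2_mem per (incl k W) ρ χ (bcb k ω₀) ?_ hω ω₀ hω₀ (fun x y => ?_) hF B hB
  · exact fun u hu => bcb_nondeg_left ω₀ hnondeg (left_nondeg ω₀ halt hnondeg) u hu
  · rw [incl_apply, incl_apply, bcb_one, eq_ratCast]

/-- The Mumford-Tate conjecture over `k` if all Tate forms over `K` are combinations of products of
determinants and classes of degree two. -/
theorem mumfordTate_of_ext (K : Type) [Field K] [CharZero K] [Algebra k K]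
    [Algebra.IsAlgebraic k K] (ω₀ : W →ₗ[ℚ] W →ₗ[ℚ] ℚ) (halt : ∀ v, ω₀ v v = 0)
    (hnondeg : ∀ u, (∀ v, ω₀ v u = 0) → u = 0) (hω₀ : IsHodgeBilinear per ω₀)
    (hω : ∀ s u v, bcb k ω₀ (ρ s u) (ρ s v) = χ s * bcb k ω₀ u v)
    (hss : FiniteIndexSemisimple ρ) (hF : FaltingsEnd per (incl k W) ρ)
    (hcen : CentreTheorem per (extend (k := k) K (incl k W)) (bcr ρ K) (bcc χ K))
    (hD : ∀ ω : (K ⊗[k] (k ⊗[ℚ] W)) →ₗ[K] (K ⊗[k] (k ⊗[ℚ] W)) →ₗ[K] K,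
      ω = bcb K (bcb k ω₀) → (∀ v, ω v v = 0) → (∀ u, (∀ v, ω u v = 0) → u = 0) →
      (∀ g u v, ω (bcr ρ K g u) (bcr ρ K g v) = bcc χ K g * ω u v) → HasProj (bcr ρ K) →
      ∀ (m : ℕ) (φ : MultilinearMap K (fun _ : Fin m × Fin 2 => K ⊗[k] (k ⊗[ℚ] W)) K),
      IsTate (bcr ρ K) (bcc χ K) m φ → φ ∈ Submodule.span K (DetProd (bcr ρ K) (bcc χ K) m)) :
    MumfordTate per (incl k W) ρ χ := by
  have halt1 := Pool.Agent.TH118.CU.bcb_alt (Ω := k) ω₀ halt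
  have hl1 : ∀ u, (∀ v, bcb k ω₀ u v = 0) → u = 0 :=
    fun u hu => bcb_nondeg_left ω₀ hnondeg (left_nondeg ω₀ halt hnondeg) u hu
  have hr1 : ∀ u, (∀ v, bcb k ω₀ v u = 0) → u = 0 :=
    fun u hu => bcb_nondeg_right ω₀ hnondeg (left_nondeg ω₀ halt hnondeg) u hu
  have halt2 := Pool.Agent.TH118.CU.bcb_alt (Ω := K) (bcb k ω₀) halt1
  have hl2 : ∀ u, (∀ v, bcb K (bcb k ω₀) u v = 0) → u = 0 :=
    fun u hu => bcb_nondeg_left (bcb k ω₀) hr1 hl1 u hu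
  have hinv := bcb_inv (Ω := K) ρ χ (bcb k ω₀) hω
  have hproj := hasProj_bcr ρ K hss
  refine mumfordTate_descent (K := K) ?_
  exact mumfordTate_of_det (bcb K (bcb k ω₀)) hl2 hinv hproj
    (faltings_ext fun B hB => faltings_bil ω₀ halt hnondeg hω₀ hω hF B hB) hcen
    (hD _ rfl halt2 hl2 hinv hproj)

end Pool.Agent.TH118.MT
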